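import Pool.Agent.helper8.AP.SpecR

/-!
# RPU (project AP, MP_16912e_nt): the weight is bounded and uniformly continuous
-/

set_option autoImplicit false

namespace Pool.Agent.AP

open Finset

theorem RPU_cont (hRGC : RGC_stmt) (p : ℕ) :
    ContinuousOn (fun q : ℝ × ℝ => Ph p q.1 q.2) (Set.Icc (1 / 2 : ℝ) 1 ×ˢ Set.Icc (0 : ℝ) 2) := by
  have hs : ContinuousOn (fun q : ℝ × ℝ => q.1 ^ (-((p : ℝ) / 2)))
      (Set.Icc (1 / 2 : ℝ) 1 ×ˢ Set.Icc (0 : ℝ) 2) := by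
    refine ContinuousOn.rpow_const continuousOn_fst fun q hq => Or.inl ?_
    have h1 : (1 / 2 : ℝ) ≤ q.1 := hq.1.1
    intro h
    rw [h] at h1
    norm_num at h1
  unfold Ph
  refine hs.mul (hRGC.comp (continuousOn_snd.mul hs) ?_)
  intro q hq
  have h1 : (0 : ℝ) ≤ q.1 := le_trans (by norm_num) hq.1.1
  exact mul_nonneg hq.2.1 (Real.rpow_nonneg h1 _)

theorem RPU (hRWB : RWB_stmt) (hRGC : RGC_stmt) : RPU_stmt := by
  intro p
  have hneg : -((p : ℝ) / 2) ≤ 0 := by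
    have : (0 : ℝ) ≤ (p : ℝ) := Nat.cast_nonneg p
    linarith
  refine ⟨(1 / 2 : ℝ) ^ (-((p : ℝ) / 2)), ?_, ?_, ?_, ?_⟩
  · exact Real.one_le_rpow_of_pos_of_le_one_of_nonpos (by norm_num) (by norm_num) hneg
  · intro u v hu1 hu2 hv1 hv2
    have hu0 : (0 : ℝ) < u := lt_of_lt_of_le (by norm_num) hu1
    have hs0 : 0 ≤ u ^ (-((p : ℝ) / 2)) := Real.rpow_nonneg hu0.le _
    have hsB : u ^ (-((p : ℝ) / 2)) ≤ (1 / 2 : ℝ) ^ (-((p : ℝ) / 2)) :=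
      Real.rpow_le_rpow_of_nonpos (by norm_num) hu1 hneg
    obtain ⟨hG0, hG1⟩ := hRWB.1 (v * u ^ (-((p : ℝ) / 2))) (mul_nonneg hv1 hs0)
    unfold Ph
    refine ⟨mul_nonneg hs0 hG0, ?_⟩
    calc u ^ (-((p : ℝ) / 2)) * Gf (v * u ^ (-((p : ℝ) / 2)))
        ≤ u ^ (-((p : ℝ) / 2)) * 1 := mul_le_mul_of_nonneg_left hG1 hs0
      _ ≤ (1 / 2 : ℝ) ^ (-((p : ℝ) / 2)) := by rw [mul_one]; exact hsB
  · intro u hu1 hu2
    refine (RPU_cont hRGC p).comp (f := fun v : ℝ => (u, v)) (Continuous.continuousOn (by fun_prop)) ?_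
    intro v hv
    exact ⟨⟨hu1, hu2⟩, hv⟩
  · intro ε hε
    have hc : IsCompact (Set.Icc (1 / 2 : ℝ) 1 ×ˢ Set.Icc (0 : ℝ) 2) := isCompact_Icc.prod isCompact_Icc
    have huc := hc.uniformContinuousOn_of_continuous (RPU_cont hRGC p)
    obtain ⟨δ, hδ, hd⟩ := (Metric.uniformContinuousOn_iff_le.mp huc) ε hε
    refine ⟨max 1 ⌈1 / δ⌉₊, le_max_left _ _, ?_⟩
    intro K hK u v u' v' hu1 hu2 hv1 hv2 hu1' hu2' hv1' hv2' huu hvv
    have hK1 : 1 / δ ≤ (K : ℝ) :=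
      le_trans (Nat.le_ceil _) (by exact_mod_cast le_trans (le_max_right _ _) hK)
    have hK0 : (0 : ℝ) < K := lt_of_lt_of_le (by positivity) hK1
    have hKd : 1 / (K : ℝ) ≤ δ := by
      rw [div_le_iff₀ hK0]
      rw [div_le_iff₀ hδ] at hK1
      linarith
    have h1 := hd (u, v) ⟨⟨hu1, hu2⟩, ⟨hv1, hv2⟩⟩ (u', v') ⟨⟨hu1', hu2'⟩, ⟨hv1', hv2'⟩⟩ (by
      rw [Prod.dist_eq, Real.dist_eq, Real.dist_eq]
      exact max_le (huu.trans hKd) (hvv.trans hKd))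
    rw [Real.dist_eq] at h1
    exact h1

end Pool.Agent.AP
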