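import Pool.Agent.helper95.AP.SpecL

/-!
# LRT (project AP, MP_16912e_nt, block L): square roots modulo `2 ^ k`

An odd `c` has four square roots modulo `2 ^ k`, `k ≥ 3`, if `c = 1` modulo 8, and none otherwise.
-/

set_option autoImplicit false

namespace Pool.Agent.APL

open Finset NumberField Pool.Agent.helper3.FT Pool.Agent.helper47.RA Pool.Agent.T5 Pool.Agent.AP

theorem LRT_odd (k : ℕ) (c x : ℤ) (hk : 1 ≤ k) (hc : c % 2 = 1) (h : (2 : ℤ) ^ k ∣ x ^ 2 - c) : x % 2 = 1 := by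
  have h2 : (2 : ℤ) ∣ x ^ 2 - c := dvd_trans (dvd_pow_self 2 (by omega)) h
  rcases Int.emod_two_eq_zero_or_one x with h0 | h0
  · exfalso
    obtain ⟨y, hy⟩ := Int.dvd_of_emod_eq_zero h0
    have h3 : x ^ 2 = 2 * (2 * y ^ 2) := by rw [hy]; ring
    rw [h3] at h2
    omega
  · exact h0

theorem LRT_mod8 (x : ℤ) (hx : x % 2 = 1) : ∃ t : ℤ, x ^ 2 = 1 + 8 * t := by
  obtain ⟨y, hy⟩ : ∃ y : ℤ, x = 2 * y + 1 := ⟨x / 2, by omega⟩
  rcases Int.even_or_odd' y with ⟨z, hz | hz⟩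
  · exact ⟨z * (2 * z + 1), by rw [hy, hz]; ring⟩
  · exact ⟨(2 * z + 1) * (z + 1), by rw [hy, hz]; ring⟩

/-- a root exists -/
theorem LRT_root (c : ℤ) (hc : c % 8 = 1) (j : ℕ) : ∃ s : ℤ, s % 2 = 1 ∧ (2 : ℤ) ^ (j + 3) ∣ s ^ 2 - c := by
  induction j with
  | zero =>
    refine ⟨1, by norm_num, ?_⟩
    norm_num
    omega
  | succ j ih =>
    obtain ⟨s, hs, t, ht⟩ := ih
    rcases Int.emod_two_eq_zero_or_one t with h0 | h0
    · obtain ⟨u, hu⟩ := Int.dvd_of_emod_eq_zero h0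
      refine ⟨s, hs, u, ?_⟩
      rw [ht, hu]
      ring
    · obtain ⟨u, hu⟩ : ∃ u : ℤ, t + s = 2 * u := ⟨(t + s) / 2, by omega⟩
      refine ⟨s + 2 ^ (j + 2), ?_, u + 2 ^ j, ?_⟩
      · have h1 : (2 : ℤ) ^ (j + 2) = 2 * 2 ^ (j + 1) := by ring
        rw [h1]
        omega
      · have h1 : (s + 2 ^ (j + 2)) ^ 2 - c = (s ^ 2 - c) + 2 ^ (j + 3) * s + 2 ^ (j + 3) * (2 * 2 ^ j) := by ring
        rw [h1, ht]
        have h2 : (2 : ℤ) ^ (j + 3) * t + 2 ^ (j + 3) * s + 2 ^ (j + 3) * (2 * 2 ^ j)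
            = 2 ^ (j + 3) * ((t + s) + 2 * 2 ^ j) := by ring
        rw [h2, hu]
        ring

/-- the roots are the classes of `s` and `-s` modulo `2 ^ (k - 1)` -/
theorem LRT_iff (c s x : ℤ) (hc : c % 2 = 1) (hs : s % 2 = 1) (j : ℕ) (h : (2 : ℤ) ^ (j + 3) ∣ s ^ 2 - c) :
    (2 : ℤ) ^ (j + 3) ∣ x ^ 2 - c ↔ (2 : ℤ) ^ (j + 2) ∣ x - s ∨ (2 : ℤ) ^ (j + 2) ∣ x + s := by
  constructor
  · intro hx
    have hxo : x % 2 = 1 := LRT_odd (j + 3) c x (by omega) hc hx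
    have h1 : (2 : ℤ) ^ (j + 3) ∣ (x - s) * (x + s) := by
      have h2 := dvd_sub hx h
      have h3 : x ^ 2 - c - (s ^ 2 - c) = (x - s) * (x + s) := by ring
      rwa [h3] at h2
    obtain ⟨a, ha⟩ : ∃ a : ℤ, x - s = 2 * a := ⟨(x - s) / 2, by omega⟩
    obtain ⟨b, hb⟩ : ∃ b : ℤ, x + s = 2 * b := ⟨(x + s) / 2, by omega⟩
    rw [ha, hb] at h1
    have h4 : (2 : ℤ) ^ (j + 1) ∣ a * b := by
      have h5 : (2 : ℤ) ^ (j + 3) = 4 * 2 ^ (j + 1) := by ring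
      have h6 : 2 * a * (2 * b) = 4 * (a * b) := by ring
      rw [h5, h6] at h1
      exact (mul_dvd_mul_iff_left (by norm_num : (4 : ℤ) ≠ 0)).mp h1
    have hpar : a % 2 = 1 ∨ b % 2 = 1 := by omega
    have hcop : ∀ y : ℤ, y % 2 = 1 → IsCoprime ((2 : ℤ) ^ (j + 1)) y := by
      intro y hy
      apply IsCoprime.pow_left
      refine ⟨-(y / 2), 1, ?_⟩
      omega
    rcases hpar with hp | hp
    · right
      have h7 : (2 : ℤ) ^ (j + 1) ∣ b := (hcop a hp).dvd_of_dvd_mul_left h4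
      rw [hb]
      have h8 : (2 : ℤ) ^ (j + 2) = 2 * 2 ^ (j + 1) := by ring
      rw [h8]
      exact mul_dvd_mul_left 2 h7
    · left
      have h7 : (2 : ℤ) ^ (j + 1) ∣ a := (hcop b hp).dvd_of_dvd_mul_right h4
      rw [ha]
      have h8 : (2 : ℤ) ^ (j + 2) = 2 * 2 ^ (j + 1) := by ring
      rw [h8]
      exact mul_dvd_mul_left 2 h7
  · rintro (⟨m, hm⟩ | ⟨m, hm⟩)
    · have h1 : x ^ 2 - c = 2 ^ (j + 3) * (m * (s + 2 ^ (j + 1) * m)) + (s ^ 2 - c) := by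
        have h2 : x = s + 2 ^ (j + 2) * m := by linarith
        rw [h2]
        ring
      rw [h1]
      exact dvd_add (dvd_mul_right _ _) h
    · have h1 : x ^ 2 - c = 2 ^ (j + 3) * (m * (-s + 2 ^ (j + 1) * m)) + (s ^ 2 - c) := by
        have h2 : x = -s + 2 ^ (j + 2) * m := by linarith
        rw [h2]
        ring
      rw [h1]
      exact dvd_add (dvd_mul_right _ _) h

theorem LRT_count (j v : ℕ) :
    ((range (2 ^ (j + 3))).filter (fun x : ℕ => x ≡ v [MOD 2 ^ (j + 2)])).card = 2 := by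
  rw [← Nat.count_eq_card_filter_range, Nat.count_modEq_card _ (by positivity)]
  have h1 : 2 ^ (j + 3) / 2 ^ (j + 2) = 2 := by
    rw [Nat.pow_div (by omega) (by norm_num)]
    have : j + 3 - (j + 2) = 1 := by omega
    rw [this, pow_one]
  have h2 : 2 ^ (j + 3) % 2 ^ (j + 2) = 0 := Nat.mod_eq_zero_of_dvd (pow_dvd_pow 2 (by omega))
  rw [h1, h2]
  simp

theorem LRT : LRT_stmt := by
  intro k c hk hc
  obtain ⟨j, rfl⟩ : ∃ j, k = j + 3 := ⟨k - 3, by omega⟩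
  by_cases h8 : c % 8 = 1
  · rw [if_pos h8]
    obtain ⟨s0, hs0, hr0⟩ := LRT_root c h8 j
    obtain ⟨s, hs, hr⟩ : ∃ s : ℕ, (s : ℤ) % 2 = 1 ∧ (2 : ℤ) ^ (j + 3) ∣ (s : ℤ) ^ 2 - c := by
      refine ⟨s0.natAbs, ?_, ?_⟩
      · omega
      · rw [Int.natCast_natAbs, sq_abs]
        exact hr0
    have h1 : (range (2 ^ (j + 3))).filter (fun x : ℕ => (2 : ℤ) ^ (j + 3) ∣ (x : ℤ) ^ 2 - c) =
        (range (2 ^ (j + 3))).filter (fun x : ℕ => x ≡ s [MOD 2 ^ (j + 2)]) ∪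
        (range (2 ^ (j + 3))).filter (fun x : ℕ => x ≡ s * (2 ^ (j + 2) - 1) [MOD 2 ^ (j + 2)]) := by
      rw [← Finset.filter_or]
      refine Finset.filter_congr fun x _ => ?_
      rw [LRT_iff c s x hc hs j hr, Nat.modEq_iff_dvd, Nat.modEq_iff_dvd]
      have hp : 1 ≤ 2 ^ (j + 2) := Nat.one_le_two_pow
      push_cast [Nat.cast_sub hp]
      have e1 : (2 : ℤ) ^ (j + 2) ∣ (x : ℤ) - s ↔ (2 : ℤ) ^ (j + 2) ∣ (s : ℤ) - x := dvd_sub_comm
      have e2 : (2 : ℤ) ^ (j + 2) ∣ (x : ℤ) + s ↔ (2 : ℤ) ^ (j + 2) ∣ (s : ℤ) * (2 ^ (j + 2) - 1) - x := by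
        have e3 : (s : ℤ) * (2 ^ (j + 2) - 1) - x = 2 ^ (j + 2) * s - ((x : ℤ) + s) := by ring
        rw [e3]
        constructor
        · intro hh
          exact dvd_sub (dvd_mul_right _ _) hh
        · intro hh
          have := dvd_sub (dvd_mul_right ((2 : ℤ) ^ (j + 2)) (s : ℤ)) hh
          have e4 : (2 : ℤ) ^ (j + 2) * s - (2 ^ (j + 2) * s - ((x : ℤ) + s)) = (x : ℤ) + s := by ring
          rwa [e4] at this
      rw [e1, e2]
    rw [h1, Finset.card_union_of_disjoint, LRT_count, LRT_count]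
    rw [Finset.disjoint_left]
    intro x hx hx'
    rw [Finset.mem_filter] at hx hx'
    have h2 := (hx.2.symm.trans hx'.2)
    rw [Nat.modEq_iff_dvd] at h2
    have hp : 1 ≤ 2 ^ (j + 2) := Nat.one_le_two_pow
    push_cast [Nat.cast_sub hp] at h2
    have h3 : (4 : ℤ) ∣ (s : ℤ) * (2 ^ (j + 2) - 1) - s := by
      refine dvd_trans ?_ h2
      exact ⟨2 ^ j, by ring⟩
    have h4 : (s : ℤ) * (2 ^ (j + 2) - 1) - s = 4 * (s * 2 ^ j) - 2 * s := by ring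
    rw [h4] at h3
    omega
  · rw [if_neg h8, Finset.card_eq_zero, Finset.filter_eq_empty_iff]
    intro x _ hx
    apply h8
    have hxo := LRT_odd (j + 3) c x (by omega) hc hx
    obtain ⟨t, ht⟩ := LRT_mod8 x hxo
    have h2 : (8 : ℤ) ∣ (x : ℤ) ^ 2 - c := by
      refine dvd_trans ?_ hx
      exact ⟨2 ^ j, by ring⟩
    rw [ht] at h2
    omega

end Pool.Agent.APL
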